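import Pool.Agent.Lib.HS.Bd.C.All
import Pool.Agent.Lib.HS.Bd.Flip
import Pool.Agent.Lib.HS.Bd.HBand
import Pool.Agent.Lib.HS.Bd.HCUc
import Pool.Agent.Lib.HS.Bd.HCUu
import Pool.Agent.Lib.HS.Bd.HCo
import Pool.Agent.Lib.HS.Bd.HFbB
import Pool.Agent.Lib.HS.Bd.HFin
import Pool.Agent.Lib.HS.Bd.HNu1
import Pool.Agent.Lib.HS.Bd.HNu2
import Pool.Agent.Lib.HS.Bd.HNu3
import Pool.Agent.Lib.HS.Bd.HNu4
import Pool.Agent.Lib.HS.Bd.HTyp
import Pool.Agent.Lib.HS.Bd.HPig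
import Pool.Agent.Lib.HS.C.Ov

/-!
# Package `HS`: assembly of the high band

helper36.
-/

set_option autoImplicit false

namespace Pool.Agent.A54.HS

open HSB

/-- the high band -/
theorem zHigh : StmtBand (6 / 25) (1 / 3 + 1 / 1000) :=
  highBandH stmtAIb stmtOv (tCUc tCo aSNq) tTyp
    (tFin aPA _root_.HSL.Flp.pDeg _root_.HSL.Flp.flip _root_.HSL.Flp.tFrm (tCUu tCo) (tCUr tCo) tPig tFbB tNu1 tNu2 tNu3 tNu4)

end Pool.Agent.A54.HS
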