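import Pool.Agent.Lib.HS.Bd.Lw.AIl
import Pool.Agent.Lib.HS.Bd.Lw.BdLow
import Pool.Agent.Lib.HS.Bd.Lw.C2
import Pool.Agent.Lib.HS.Bd.Lw.C3
import Pool.Agent.Lib.HS.Bd.Lw.Cls
import Pool.Agent.Lib.HS.Bd.Lw.Cz
import Pool.Agent.Lib.HS.Bd.Lw.Dy
import Pool.Agent.Lib.HS.Bd.Lw.Fb
import Pool.Agent.Lib.HS.Bd.Lw.LT
import Pool.Agent.Lib.HS.Bd.Lw.Low
import Pool.Agent.Lib.HS.Bd.Lw.N0
import Pool.Agent.Lib.HS.Bd.Lw.NP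
import Pool.Agent.Lib.HS.Bd.Lw.Nn
import Pool.Agent.Lib.HS.Bd.Lw.Np
import Pool.Agent.Lib.HS.Bd.Lw.PA
import Pool.Agent.Lib.HS.Bd.Lw.PC
import Pool.Agent.Lib.HS.Bd.Lw.PE
import Pool.Agent.Lib.HS.Bd.Lw.PG
import Pool.Agent.Lib.HS.Bd.Lw.PL
import Pool.Agent.Lib.HS.Bd.Lw.PLc
import Pool.Agent.Lib.HS.Bd.Lw.PM
import Pool.Agent.Lib.HS.Bd.Lw.PR
import Pool.Agent.Lib.HS.Bd.Lw.Pa
import Pool.Agent.Lib.HS.Bd.Lw.Par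
import Pool.Agent.Lib.HS.Bd.Lw.Pd
import Pool.Agent.Lib.HS.Bd.Lw.PgN
import Pool.Agent.Lib.HS.Bd.Lw.Pq
import Pool.Agent.Lib.HS.Bd.Lw.R2
import Pool.Agent.Lib.HS.Bd.Lw.Sp
import Pool.Agent.Lib.HS.Bd.Lw.T3
import Pool.Agent.Lib.HS.Bd.Lw.TA
import Pool.Agent.Lib.HS.Bd.Lw.VX
import Pool.Agent.Lib.HS.L.Fr
import Pool.Agent.Lib.HS.L.Fbr

/-!
# Package `HS`: assembly of the low bands (abstract part)

helper36.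
-/

set_option autoImplicit false

namespace HSLow

open HSL

theorem zFrm : HSL.S_Frm := HSL.tFrm HSL.tFr

theorem zPA : S_PA := tPA tFb HSL.tFr

theorem zPE : S_PE := tPE tFb tPar zPA (tPR tFb tPar zPA HSL.tFr)

theorem zPM : S_PM := tPM tFb tPar zPA HSL.tFr

theorem zPG : S_PG := tPG tFb tPar tR2 zPA

theorem zTA : S_TA := tTA tFb tPar (tLT tFb tPar tR2) zFrm HSL.tFbr

theorem zPd : S_Pd := tPd (tPC tFb tPar) tC2 (tC3 tFb tPar zFrm HSL.tFbr) tPa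

theorem zNP : S_NP := tNP zTA (tPq tFb tPar tPa zFrm) zPd tPa HSL.tFr

theorem zPL : S_PL := tPL (tPLc tFb zPE zPM zPG) tDy

theorem zLow : S_Low :=
  tLow tFb (tVX tFb) (tT3 tFb) zNP zPL (tCls tFb (tVX tFb)) (tPgN tFb) tN0 tNn tNp

end HSLow
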