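import Pool.Agent.Lib.HS.C.Top
import Pool.Agent.Lib.HS.C.Hyp
import Pool.Agent.Lib.HS.C.Gt
import Pool.Agent.Lib.HS.C.Gz
import Pool.Agent.Lib.HS.C.Ov
import Pool.Agent.Lib.HS.C.Ms
import Pool.Agent.Lib.HS.C.Rt
import Pool.Agent.Lib.HS.C.T1
import Pool.Agent.Lib.HS.C.AIc
import Pool.Agent.Lib.HS.Bd.Top
import Pool.Agent.Lib.HS.Dst
import Pool.Agent.Lib.HS.Di4
import Pool.Agent.Lib.HS.L.TopL

/-!
# Package `HS`: the final assembly of PROJECT H*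

helper36. Open: `StmtBdLow`, `StmtBand (6/25) (1/3 + 1/1000)` (bands).
-/

set_option autoImplicit false

namespace Pool.Agent.A54.HS

open MeasureTheory Filter Topology Set
open scoped ContDiff ComplexConjugate UpperHalfPlane MatrixGroups ENNReal
open Pool.Agent.A54.Dyn (G fl base ze io mk4 dom)
open Pool.Agent.A54.Av (Mat NonSc)
open Pool.Agent.A54.Hp Pool.Agent.A54.Hp.Hk Pool.Agent.A54.Hp.A2M

/-- the critical levels -/
theorem zHyp : StmtHyp :=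
  stmtHyp stmtMc stmtOv stmtGt stmtGz stmtMs
    (stmtAIc (stmtAId stmtNuL pUnf stmtNm pDds pTot)
      (stmtT1 (stmtDst stmtNuL pUnf stmtNm pDds pTot) (stmtRt HSL.zCLA HSL.tCS) stmtOv pTot) stmtBd) pTot

/-- **the bound at the bad scales** -/
theorem stmtHS_asm (hLow : StmtBdLow) (hHigh : StmtBand (6 / 25) (1 / 3 + 1 / 1000)) : StmtHS :=
  stmtHS_of pTot (stmtBands (lowBand hLow) hHigh) zHyp HSL.zCon

/-- **the theorem** from the open statements -/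
theorem mainH_asm (hLow : StmtBdLow) (hHigh : StmtBand (6 / 25) (1 / 3 + 1 / 1000))
    (f : ℕ → ℍ → ℝ) (t : ℕ → ℝ) (hf : ∀ i, IsHeckeMaass (f i) (t i)) (ht : Tendsto t atTop atTop) :
    (∀ D : Set ℍ, IsCompact D → ∃ C : ℝ, ∀ i, ∫ z in D, f i z ^ 4 ≤ C) ∧
    ((∀ ψ : ℍ → ℝ, TestX ψ → Tendsto (fun i => ∫ z in ModularGroup.fdo, ψ z * f i z ^ 2) atTop
      (𝓝 (∫ z in ModularGroup.fdo, ψ z))) →
    ∀ ψ : ℍ → ℝ, TestX ψ → ∀ n : ℕ, 1 ≤ n → n ≤ 4 →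
      Tendsto (fun i => ∫ z in ModularGroup.fdo, ψ z * f i z ^ n) atTop
        (𝓝 (1 / √(2 * Real.pi) * (∫ x : ℝ, x ^ n * Real.exp (-x ^ 2 / 2)) *
          ∫ z in ModularGroup.fdo, ψ z))) :=
  mainH (stmtHS_asm hLow hHigh) f t hf ht

end Pool.Agent.A54.HS
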